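import Pool.Agent.Y703.QT8.B

/-!
Project QT, part H: `H8a`, `H8b`, `H8c` of `Pool/Agent/Y19/QT/Stm4.lean` (job 421 of helper19);
modifications of `Pool.Agent.Y703.QT8` with an arbitrary angle and explicit dependence on it.
-/

set_option autoImplicit false

namespace Pool.Agent.Y46.QTH8

open Complex MeasureTheory Filter Topology Set
open Pool.Agent.Y19.QT
open Pool.Agent.Y703.QT8
open Pool.Agent.H306R2.RZ (js Gk)
open scoped ENNReal ComplexConjugate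

/-- H8a: subexponential growth -/
theorem H8a {Q : ℕ} {lam : ℕ → ℝ} (T : Twists Q lam) (d : ℤ) (hd : Squarefree d) (ε : ℝ)
    (hε : 0 < ε) : ∃ C : ℝ, ∀ s : ℂ, 1 / 4 ≤ s.re → s.re ≤ 3 →
      ‖T.ell d s‖ ≤ C * Real.exp (ε * |s.im|) := by
  obtain ⟨c, hc, hg⟩ := gamma_low
  have hq := q_pos T hd
  have hpi := Real.pi_pos
  have hm1 : min ε (Real.pi / 4) ≤ ε := min_le_left _ _
  have hm2 : min ε (Real.pi / 4) ≤ Real.pi / 4 := min_le_right _ _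
  have hm0 : 0 < min ε (Real.pi / 4) := lt_min hε (by positivity)
  set θ : ℝ := Real.pi / 2 - min ε (Real.pi / 4) with hθ
  have h0 : 0 ≤ θ := by rw [hθ]; linarith
  have h1 : θ < Real.pi / 2 := by rw [hθ]; linarith
  have ha : |θ| < Real.pi / 2 := by rwa [abs_of_nonneg h0]
  have ha' : |(-θ)| < Real.pi / 2 := by rwa [abs_neg]
  set B := 2 * Kd T d θ * cB (Real.pi * x0 T d θ) 3 with hB
  set P := max 1 (2 * Real.pi / T.q d) with hP
  have hP1 : 1 ≤ P := le_max_left _ _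
  refine ⟨P ^ (4 : ℝ) * c⁻¹ * B, fun s hs1 hs2 => ?_⟩
  have hre : (s + 1 / 2).re = s.re + 1 / 2 := by simp
  have him : (s + 1 / 2).im = s.im := by simp
  have hM : ‖MM T d 0 (s + 1 / 2)‖ ≤ Real.exp (-(θ * |s.im|)) * B := by
    have h := mm_norm_abs T hd h0 h1 (s + 1 / 2)
    rw [him] at h
    refine h.trans ?_
    have hN : |(s + 1 / 2).re - 1| ≤ ((3 : ℕ) : ℝ) := by
      rw [hre, abs_le]; constructor <;> push_cast <;> linarith
    have b1 := ((F_dec T hd ha).conv_norm 3 hN).2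
    have b2 := ((F_dec T hd ha').conv_norm 3 hN).2
    rw [Kd_neg, x0_neg] at b2
    gcongr
    split_ifs
    · exact b1
    · exact b2
  have hG := hg (s + 1 / 2) (by rw [hre]; linarith) (by rw [hre]; linarith)
  rw [him] at hG
  have hG' : ‖Complex.Gamma (s + 1 / 2)‖⁻¹ ≤ c⁻¹ * Real.exp (Real.pi / 2 * |s.im|) := by
    have : c⁻¹ * Real.exp (Real.pi / 2 * |s.im|) = (c * Real.exp (-(Real.pi / 2 * |s.im|)))⁻¹ := by
      rw [mul_inv, Real.exp_neg, inv_inv]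
    rw [this]
    exact inv_anti₀ (by positivity) hG
  have hpow : ‖(2 * Real.pi / (T.q d : ℂ)) ^ (s + 1 / 2)‖ ≤ P ^ (4 : ℝ) := by
    rw [q_cast, Complex.norm_cpow_eq_rpow_re_of_pos (by positivity), hre]
    calc (2 * Real.pi / T.q d) ^ (s.re + 1 / 2) ≤ P ^ (s.re + 1 / 2) :=
          Real.rpow_le_rpow (by positivity) (le_max_right _ _) (by linarith)
      _ ≤ P ^ (4 : ℝ) := Real.rpow_le_rpow_of_exponent_le hP1 (by linarith)
  rw [ell_eq, norm_mul, norm_mul, norm_inv]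
  have hB0 : 0 ≤ Real.exp (-(θ * |s.im|)) * B := (norm_nonneg _).trans hM
  calc ‖(2 * Real.pi / (T.q d : ℂ)) ^ (s + 1 / 2)‖ * ‖Complex.Gamma (s + 1 / 2)‖⁻¹ *
        ‖MM T d 0 (s + 1 / 2)‖
      ≤ P ^ (4 : ℝ) * (c⁻¹ * Real.exp (Real.pi / 2 * |s.im|)) * (Real.exp (-(θ * |s.im|)) * B) := by
        gcongr
    _ = P ^ (4 : ℝ) * c⁻¹ * B * (Real.exp (Real.pi / 2 * |s.im|) * Real.exp (-(θ * |s.im|))) := by
        ring
    _ ≤ P ^ (4 : ℝ) * c⁻¹ * B * Real.exp (ε * |s.im|) := by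
        rw [← Real.exp_add]
        have hB1 : 0 ≤ B := nonneg_of_mul_nonneg_right hB0 (Real.exp_pos _)
        have hP0 : 0 ≤ P := zero_le_one.trans hP1
        refine mul_le_mul_of_nonneg_left (Real.exp_le_exp.2 ?_) (by positivity)
        have e : Real.pi / 2 * |s.im| + -(θ * |s.im|) = min ε (Real.pi / 4) * |s.im| := by
          rw [hθ]; ring
        rw [e]
        exact mul_le_mul_of_nonneg_right hm1 (abs_nonneg _)

/-- H8b: T8b with a constant independent of `θ` -/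
theorem H8b {Q : ℕ} {lam : ℕ → ℝ} (T : Twists Q lam) :
    ∃ C : ℝ, 0 < C ∧ ∀ (θ : ℝ) (d : ℤ) (σ σ' : ℝ), 0 < θ → θ < Real.pi / 2 →
      Squarefree d → 0 ≤ σ → σ ≤ 1 → σ' ≤ 1 → |σ - 1 / 2| ≤ σ' - 1 / 2 →
      ∫⁻ y : ℝ, ‖T.ell d (σ + y * I)‖ₑ ^ 2 *
          ENNReal.ofReal (Real.exp (-((Real.pi - 2 * θ) * |y|))) ≤
        ENNReal.ofReal (C * |(d : ℝ)| ^ (2 * (σ' - σ))) * NN σ' θ (T.q d)⁻¹ (T.Gf d) := by
  obtain ⟨c, hc, hg⟩ := gamma_low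
  have hpi := Real.pi_gt_three
  have hTc := T.one_le_c
  refine ⟨c⁻¹ ^ 2 * 4 * (2 * Real.pi) * (2 * Real.pi) ^ 3 * T.c ^ 2, by positivity,
    fun θ d σ σ' h0 h1 hd hσ0 hσ1 hσ'1 hσσ => ?_⟩
  obtain ⟨k1, k2⟩ := abs_le.1 hσσ
  have ha : |θ| < Real.pi / 2 := by rwa [abs_of_pos h0]
  have ha' : |(-θ)| < Real.pi / 2 := by rwa [abs_neg]
  have hq := q_pos T hd
  have hd1 := one_le_abs hd
  set x : ℝ := σ + 1 / 2 with hx
  have hpt : ∀ y : ℝ, ‖T.ell d (σ + y * I)‖ₑ ^ 2 *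
      ENNReal.ofReal (Real.exp (-((Real.pi - 2 * θ) * |y|))) ≤
      ENNReal.ofReal (c⁻¹ ^ 2 * (2 * Real.pi / T.q d) ^ (2 * σ + 1)) *
        (‖MM T d θ (x + y * I)‖ₑ ^ 2 + ‖MM T d (-θ) (x + y * I)‖ₑ ^ 2) := by
    intro y
    have es : (σ : ℂ) + y * I + 1 / 2 = (x : ℂ) + y * I := by rw [hx]; push_cast; ring
    have hre : ((x : ℂ) + y * I).re = x := by simp
    have him : ((x : ℂ) + y * I).im = y := by simp
    have hG := hg ((x : ℂ) + y * I) (by rw [hre, hx]; linarith) (by rw [hre, hx]; linarith)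
    rw [him] at hG
    have hG' : ‖Complex.Gamma ((x : ℂ) + y * I)‖⁻¹ ≤ c⁻¹ * Real.exp (Real.pi / 2 * |y|) := by
      have : c⁻¹ * Real.exp (Real.pi / 2 * |y|) = (c * Real.exp (-(Real.pi / 2 * |y|)))⁻¹ := by
        rw [mul_inv, Real.exp_neg, inv_inv]
      rw [this]
      exact inv_anti₀ (by positivity) hG
    have hM := mm_norm_abs T hd h0.le h1 ((x : ℂ) + y * I)
    rw [him] at hM
    set m1 := ‖MM T d θ (x + y * I)‖ with hm1
    set m2 := ‖MM T d (-θ) (x + y * I)‖ with hm2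
    have hM2 : ‖MM T d 0 (x + y * I)‖ ^ 2 ≤ Real.exp (-(2 * θ * |y|)) * (m1 ^ 2 + m2 ^ 2) := by
      have e : Real.exp (-(2 * θ * |y|)) = Real.exp (-(θ * |y|)) ^ 2 := by
        rw [← Real.exp_nat_mul]; congr 1; push_cast; ring
      have h3 : (if 0 ≤ y then m1 else m2) ^ 2 ≤ m1 ^ 2 + m2 ^ 2 := by
        split_ifs
        · have := sq_nonneg m2; linarith
        · have := sq_nonneg m1; linarith
      calc ‖MM T d 0 (x + y * I)‖ ^ 2 ≤ (Real.exp (-(θ * |y|)) * (if 0 ≤ y then m1 else m2)) ^ 2 := by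
            gcongr
        _ = Real.exp (-(θ * |y|)) ^ 2 * (if 0 ≤ y then m1 else m2) ^ 2 := by rw [mul_pow]
        _ ≤ _ := by rw [e]; gcongr
    have hE : ‖T.ell d (σ + y * I)‖ ^ 2 * Real.exp (-((Real.pi - 2 * θ) * |y|)) ≤
        c⁻¹ ^ 2 * (2 * Real.pi / T.q d) ^ (2 * σ + 1) * (m1 ^ 2 + m2 ^ 2) := by
      rw [ell_eq, es, norm_mul, norm_mul, norm_inv, q_cast,
        Complex.norm_cpow_eq_rpow_re_of_pos (by positivity), hre, mul_pow, mul_pow]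
      have e1 : ((2 * Real.pi / T.q d) ^ x) ^ 2 = (2 * Real.pi / T.q d) ^ (2 * σ + 1) := by
        rw [← Real.rpow_natCast, ← Real.rpow_mul (by positivity)]
        congr 1; rw [hx]; push_cast; ring
      rw [e1]
      calc (2 * Real.pi / T.q d) ^ (2 * σ + 1) * ‖Complex.Gamma ((x : ℂ) + y * I)‖⁻¹ ^ 2 *
            ‖MM T d 0 (x + y * I)‖ ^ 2 * Real.exp (-((Real.pi - 2 * θ) * |y|))
          ≤ (2 * Real.pi / T.q d) ^ (2 * σ + 1) * (c⁻¹ * Real.exp (Real.pi / 2 * |y|)) ^ 2 *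
            (Real.exp (-(2 * θ * |y|)) * (m1 ^ 2 + m2 ^ 2)) *
            Real.exp (-((Real.pi - 2 * θ) * |y|)) := by gcongr
        _ = c⁻¹ ^ 2 * (2 * Real.pi / T.q d) ^ (2 * σ + 1) * (m1 ^ 2 + m2 ^ 2) *
            (Real.exp (Real.pi / 2 * |y|) * Real.exp (Real.pi / 2 * |y|) *
              Real.exp (-(2 * θ * |y|)) * Real.exp (-((Real.pi - 2 * θ) * |y|))) := by ring
        _ = _ := by
            rw [← Real.exp_add, ← Real.exp_add, ← Real.exp_add]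
            have : Real.pi / 2 * |y| + Real.pi / 2 * |y| + -(2 * θ * |y|) +
              -((Real.pi - 2 * θ) * |y|) = 0 := by ring
            rw [this, Real.exp_zero, mul_one]
    rw [← ofReal_norm, ← ofReal_norm, ← ofReal_norm, ← ENNReal.ofReal_pow (norm_nonneg _),
      ← ENNReal.ofReal_pow (norm_nonneg _), ← ENNReal.ofReal_pow (norm_nonneg _),
      ← ENNReal.ofReal_mul (by positivity), ← ENNReal.ofReal_add (by positivity) (by positivity),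
      ← ENNReal.ofReal_mul (by positivity)]
    exact ENNReal.ofReal_le_ofReal hE
  have hmeas : ∀ θ' : ℝ, |θ'| < Real.pi / 2 →
      Measurable fun y : ℝ => ‖MM T d θ' (x + y * I)‖ₑ ^ 2 := by
    intro θ' hθ'
    have h := (mm_diff T hd hθ').continuous
    have h2 : Continuous fun y : ℝ => MM T d θ' (x + y * I) := h.comp (by fun_prop)
    exact (h2.enorm.measurable).pow_const 2
  have hpl : ∀ θ' : ℝ, |θ'| < Real.pi / 2 →
      (∀ u : ℝ, ‖T.F d (ray θ' u)‖ₑ = ‖T.F d (ray θ u)‖ₑ) →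
      ∫⁻ y : ℝ, ‖MM T d θ' (x + y * I)‖ₑ ^ 2 ≤
      ENNReal.ofReal (2 * Real.pi) * (2 * (ENNReal.ofReal (T.q d ^ (2 * σ' + 1)) *
        NN σ' θ (T.q d)⁻¹ (T.Gf d))) := by
    intro θ' hθ' hθθ
    have h := (F_dec T hd hθ').planch x
    unfold MM
    rw [h]
    gcongr
    rw [← F_scale T hd]
    have e : 2 * x - 1 = 2 * σ := by rw [hx]; ring
    rw [e]
    simp_rw [hθθ]
    exact F_all T hd ha hσσ
  have h5 := hpl θ ha (fun _ => rfl)
  have h6 := hpl (-θ) ha' (fun u => by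
    rw [← ofReal_norm, ← ofReal_norm, F_ray_neg_norm])
  calc _ ≤ ∫⁻ y : ℝ, ENNReal.ofReal (c⁻¹ ^ 2 * (2 * Real.pi / T.q d) ^ (2 * σ + 1)) *
        (‖MM T d θ (x + y * I)‖ₑ ^ 2 + ‖MM T d (-θ) (x + y * I)‖ₑ ^ 2) := lintegral_mono hpt
    _ = ENNReal.ofReal (c⁻¹ ^ 2 * (2 * Real.pi / T.q d) ^ (2 * σ + 1)) *
        ((∫⁻ y : ℝ, ‖MM T d θ (x + y * I)‖ₑ ^ 2) + ∫⁻ y : ℝ, ‖MM T d (-θ) (x + y * I)‖ₑ ^ 2) := by
        rw [lintegral_const_mul' _ _ ENNReal.ofReal_ne_top, lintegral_add_left (hmeas θ ha)]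
    _ ≤ ENNReal.ofReal (c⁻¹ ^ 2 * (2 * Real.pi / T.q d) ^ (2 * σ + 1)) *
        (ENNReal.ofReal (2 * Real.pi) * (2 * (ENNReal.ofReal (T.q d ^ (2 * σ' + 1)) *
        NN σ' θ (T.q d)⁻¹ (T.Gf d))) + ENNReal.ofReal (2 * Real.pi) * (2 * (ENNReal.ofReal
        (T.q d ^ (2 * σ' + 1)) * NN σ' θ (T.q d)⁻¹ (T.Gf d)))) := by gcongr
    _ = ENNReal.ofReal (c⁻¹ ^ 2 * (2 * Real.pi / T.q d) ^ (2 * σ + 1) * (2 * Real.pi) * 4 *
        T.q d ^ (2 * σ' + 1)) * NN σ' θ (T.q d)⁻¹ (T.Gf d) := by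
        have g1 : 0 ≤ c⁻¹ ^ 2 * (2 * Real.pi / T.q d) ^ (2 * σ + 1) := by positivity
        have g2 : 0 ≤ 2 * Real.pi := by positivity
        generalize c⁻¹ ^ 2 * (2 * Real.pi / T.q d) ^ (2 * σ + 1) = A at g1 ⊢
        rw [ENNReal.ofReal_mul (p := A * (2 * Real.pi) * 4) (by positivity),
          ENNReal.ofReal_mul (p := A * (2 * Real.pi)) (by positivity),
          ENNReal.ofReal_mul (p := A) g1, show ENNReal.ofReal 4 = 4 by norm_num]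
        ring
    _ ≤ _ := by
        gcongr ENNReal.ofReal ?_ * _
        have e1 : (2 * Real.pi / T.q d) ^ (2 * σ + 1) * T.q d ^ (2 * σ' + 1) =
            (2 * Real.pi) ^ (2 * σ + 1) * T.q d ^ (2 * (σ' - σ)) := by
          have h8 : T.q d ^ (2 * σ' + 1) = T.q d ^ (2 * (σ' - σ)) * T.q d ^ (2 * σ + 1) := by
            rw [← Real.rpow_add hq]; congr 1; ring
          rw [Real.div_rpow (by positivity) hq.le, h8]
          have h7 : T.q d ^ (2 * σ + 1) ≠ 0 := (Real.rpow_pos_of_pos hq _).ne'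
          generalize T.q d ^ (2 * σ + 1) = A at h7 ⊢
          generalize T.q d ^ (2 * (σ' - σ)) = B
          field_simp
        have e2 : (2 * Real.pi) ^ (2 * σ + 1) ≤ (2 * Real.pi) ^ 3 := by
          rw [← Real.rpow_natCast (2 * Real.pi) 3]
          exact Real.rpow_le_rpow_of_exponent_le (by linarith) (by push_cast; linarith)
        have e3 : T.q d ^ (2 * (σ' - σ)) ≤ T.c ^ 2 * |(d : ℝ)| ^ (2 * (σ' - σ)) := by
          calc T.q d ^ (2 * (σ' - σ)) ≤ (T.c * |(d : ℝ)|) ^ (2 * (σ' - σ)) :=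
                Real.rpow_le_rpow hq.le (T.q_upper d hd) (by linarith)
            _ = T.c ^ (2 * (σ' - σ)) * |(d : ℝ)| ^ (2 * (σ' - σ)) :=
                Real.mul_rpow (by positivity) (by positivity)
            _ ≤ T.c ^ 2 * |(d : ℝ)| ^ (2 * (σ' - σ)) := by
                gcongr
                rw [← Real.rpow_natCast T.c 2]
                exact Real.rpow_le_rpow_of_exponent_le hTc (by push_cast; linarith)
        calc c⁻¹ ^ 2 * (2 * Real.pi / T.q d) ^ (2 * σ + 1) * (2 * Real.pi) * 4 * T.q d ^ (2 * σ' + 1)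
            = c⁻¹ ^ 2 * 4 * (2 * Real.pi) * ((2 * Real.pi / T.q d) ^ (2 * σ + 1) *
              T.q d ^ (2 * σ' + 1)) := by ring
          _ ≤ c⁻¹ ^ 2 * 4 * (2 * Real.pi) * ((2 * Real.pi) ^ 3 *
              (T.c ^ 2 * |(d : ℝ)| ^ (2 * (σ' - σ)))) := by rw [e1]; gcongr
          _ = _ := by ring

/-- T8c with an explicit constant -/
theorem T8c_expl {Q : ℕ} {lam : ℕ → ℝ} (T : Twists Q lam) (θ : ℝ) (h0 : 0 < θ)
    (h1 : θ < Real.pi / 2) (d : ℤ) (σ : ℝ) (hd : Squarefree d) (hσ1 : 1 / 2 ≤ σ) (hσ2 : σ ≤ 1) :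
    NN σ θ (T.q d)⁻¹ (T.Gf d) ≤
      ENNReal.ofReal ((T.c * (2 * (Real.cos θ)⁻¹ ^ 3)) ^ 2 * T.c ^ 4 * |(d : ℝ)| ^ 6) := by
  have hTc := T.one_le_c
  have hcos : 0 < Real.cos θ := Real.cos_pos_of_mem_Ioo ⟨by linarith [Real.pi_pos], h1⟩
  have hcos1 : Real.cos θ ≤ 1 := Real.cos_le_one θ
  set κ := (Real.cos θ)⁻¹ with hκ
  have hκ1 : 1 ≤ κ := (one_le_inv₀ hcos).2 hcos1
  have hq := q_pos T hd
  have hd1 := one_le_abs hd
  set D := T.c * |(d : ℝ)| with hD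
  have hD1 : 1 ≤ D := by nlinarith
  have hqD : T.q d ≤ D := T.q_upper d hd
  have hpt : ∀ u ∈ Ioi (T.q d)⁻¹, ‖T.Gf d (ray θ u)‖ₑ ^ 2 * ENNReal.ofReal (u ^ (2 * σ)) ≤
      ENNReal.ofReal ((T.c * (2 * κ ^ 3) * D) ^ 2 * u ^ (2 * σ - 4)) := by
    intro u (hu : (T.q d)⁻¹ < u)
    have hu0 : 0 < u := lt_trans (inv_pos.2 hq) hu
    have hw : 0 < (ray θ u).re := by rw [ray_re]; positivity
    have h := gf_bound T d hd hw
    rw [ray_re] at h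
    have h2 : (u * Real.cos θ)⁻¹ = u⁻¹ * κ := by rw [mul_inv]
    have h3 : u⁻¹ ≤ D := by
      refine le_trans ?_ hqD
      rw [inv_le_comm₀ hu0 hq]; exact hu.le
    have hb : ‖T.Gf d (ray θ u)‖ ≤ T.c * (2 * κ ^ 3) * D * u⁻¹ ^ 2 := by
      refine h.trans ?_
      rw [h2]
      have e1 : Real.exp (-(Real.pi * (u * Real.cos θ))) ≤ 1 := by
        rw [Real.exp_le_one_iff]
        have : 0 < Real.pi * (u * Real.cos θ) := by positivity
        linarith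
      have e2 : (u⁻¹ * κ) ^ 2 ≤ κ ^ 3 * D * u⁻¹ ^ 2 := by
        have : κ ^ 2 ≤ κ ^ 3 := pow_le_pow_right₀ hκ1 (by norm_num)
        calc (u⁻¹ * κ) ^ 2 = κ ^ 2 * 1 * u⁻¹ ^ 2 := by ring
          _ ≤ κ ^ 3 * D * u⁻¹ ^ 2 := by gcongr
      have e3 : (u⁻¹ * κ) ^ 3 ≤ κ ^ 3 * D * u⁻¹ ^ 2 := by
        calc (u⁻¹ * κ) ^ 3 = κ ^ 3 * u⁻¹ * u⁻¹ ^ 2 := by ring
          _ ≤ κ ^ 3 * D * u⁻¹ ^ 2 := by gcongr
      calc T.c * (((u⁻¹ * κ) ^ 2 + (u⁻¹ * κ) ^ 3) * Real.exp (-(Real.pi * (u * Real.cos θ))))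
          ≤ T.c * ((κ ^ 3 * D * u⁻¹ ^ 2 + κ ^ 3 * D * u⁻¹ ^ 2) * 1) := by gcongr
        _ = _ := by ring
    rw [← ofReal_norm, ← ENNReal.ofReal_pow (norm_nonneg _), ← ENNReal.ofReal_mul (by positivity)]
    apply ENNReal.ofReal_le_ofReal
    have e4 : u ^ (2 * σ - 4) = (u⁻¹ ^ 2) ^ 2 * u ^ (2 * σ) := by
      rw [sub_eq_add_neg, Real.rpow_add hu0, Real.rpow_neg hu0.le, mul_comm]
      congr 1
      rw [show (4 : ℝ) = ((4 : ℕ) : ℝ) by norm_num, Real.rpow_natCast]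
      field_simp
    calc ‖T.Gf d (ray θ u)‖ ^ 2 * u ^ (2 * σ)
        ≤ (T.c * (2 * κ ^ 3) * D * u⁻¹ ^ 2) ^ 2 * u ^ (2 * σ) := by gcongr
      _ = _ := by rw [e4]; ring
  unfold NN
  have hint := integrableOn_Ioi_rpow_of_lt (a := 2 * σ - 4) (by linarith) (inv_pos.2 hq)
  calc _ ≤ ∫⁻ u in Ioi (T.q d)⁻¹, ENNReal.ofReal ((T.c * (2 * κ ^ 3) * D) ^ 2 * u ^ (2 * σ - 4)) :=
        setLIntegral_mono_ae' measurableSet_Ioi (Filter.Eventually.of_forall hpt)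
    _ = ENNReal.ofReal (∫ u in Ioi (T.q d)⁻¹, (T.c * (2 * κ ^ 3) * D) ^ 2 * u ^ (2 * σ - 4)) := by
        rw [ofReal_integral_eq_lintegral_ofReal (hint.const_mul _)]
        filter_upwards [ae_restrict_mem measurableSet_Ioi] with u hu
        have hu0 : 0 < u := lt_trans (inv_pos.2 hq) hu
        positivity
    _ ≤ _ := by
        apply ENNReal.ofReal_le_ofReal
        rw [integral_const_mul, integral_Ioi_rpow_of_lt (by linarith) (inv_pos.2 hq)]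
        have e5 : -(T.q d)⁻¹ ^ (2 * σ - 4 + 1) / (2 * σ - 4 + 1) ≤ D ^ 2 := by
          have e6 : (T.q d)⁻¹ ^ (2 * σ - 4 + 1) = T.q d ^ (3 - 2 * σ) := by
            rw [Real.inv_rpow hq.le, ← Real.rpow_neg hq.le]; congr 1; ring
          rw [e6, neg_div, ← div_neg, div_le_iff₀ (by linarith)]
          have e7 : T.q d ^ (3 - 2 * σ) ≤ D ^ 2 := by
            calc T.q d ^ (3 - 2 * σ) ≤ D ^ (3 - 2 * σ) := Real.rpow_le_rpow hq.le hqD (by linarith)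
              _ ≤ D ^ ((2 : ℕ) : ℝ) := Real.rpow_le_rpow_of_exponent_le hD1 (by push_cast; linarith)
              _ = D ^ 2 := Real.rpow_natCast _ _
          refine e7.trans (le_mul_of_one_le_right (by positivity) (by linarith))
        calc (T.c * (2 * κ ^ 3) * D) ^ 2 * (-(T.q d)⁻¹ ^ (2 * σ - 4 + 1) / (2 * σ - 4 + 1))
            ≤ (T.c * (2 * κ ^ 3) * D) ^ 2 * D ^ 2 := by gcongr
          _ = (T.c * (2 * κ ^ 3)) ^ 2 * T.c ^ 4 * |(d : ℝ)| ^ 4 := by rw [hD]; ring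
          _ ≤ _ := by
            gcongr ?_ * ?_
            exact pow_le_pow_right₀ hd1 (by norm_num)

/-- H8c: T8c with polynomial dependence on `(π/2 - θ)⁻¹` -/
theorem H8c {Q : ℕ} {lam : ℕ → ℝ} (T : Twists Q lam) :
    ∃ (C : ℝ) (B : ℕ), 0 < C ∧ ∀ (θ : ℝ) (d : ℤ) (σ : ℝ), 0 < θ → θ < Real.pi / 2 →
      Squarefree d → 1 / 2 ≤ σ → σ ≤ 1 →
      NN σ θ (T.q d)⁻¹ (T.Gf d) ≤
        ENNReal.ofReal (C * ((Real.pi / 2 - θ)⁻¹) ^ B * |(d : ℝ)| ^ 6) := by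
  have hTc := T.one_le_c
  have hpi := Real.pi_pos
  refine ⟨4 * T.c ^ 6 * (Real.pi / 2) ^ 6, 6, by positivity, fun θ d σ h0 h1 hd hσ1 hσ2 => ?_⟩
  refine (T8c_expl T θ h0 h1 d σ hd hσ1 hσ2).trans (ENNReal.ofReal_le_ofReal ?_)
  have hx : 0 < Real.pi / 2 - θ := by linarith
  have hcos : 0 < Real.cos θ := Real.cos_pos_of_mem_Ioo ⟨by linarith, h1⟩
  have hj : 2 / Real.pi * (Real.pi / 2 - θ) ≤ Real.cos θ := by
    have := Real.mul_le_sin hx.le (by linarith : Real.pi / 2 - θ ≤ Real.pi / 2)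
    rwa [Real.sin_pi_div_two_sub] at this
  have hk : (Real.cos θ)⁻¹ ≤ Real.pi / 2 * (Real.pi / 2 - θ)⁻¹ := by
    have h2 : (2 / Real.pi * (Real.pi / 2 - θ))⁻¹ = Real.pi / 2 * (Real.pi / 2 - θ)⁻¹ := by
      rw [mul_inv, inv_div]
    rw [← h2]
    exact inv_anti₀ (by positivity) hj
  have hk0 : 0 ≤ (Real.cos θ)⁻¹ := by positivity
  have hk6 : (Real.cos θ)⁻¹ ^ 6 ≤ (Real.pi / 2 * (Real.pi / 2 - θ)⁻¹) ^ 6 :=
    pow_le_pow_left₀ hk0 hk 6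
  calc (T.c * (2 * (Real.cos θ)⁻¹ ^ 3)) ^ 2 * T.c ^ 4 * |(d : ℝ)| ^ 6
      = 4 * T.c ^ 6 * (Real.cos θ)⁻¹ ^ 6 * |(d : ℝ)| ^ 6 := by ring
    _ ≤ 4 * T.c ^ 6 * (Real.pi / 2 * (Real.pi / 2 - θ)⁻¹) ^ 6 * |(d : ℝ)| ^ 6 := by gcongr
    _ = _ := by ring

end Pool.Agent.Y46.QTH8
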